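import Pool.Agent.Lib.MP_488b8a_co_Y.Fin9y

/-! MP_488b8a_co: the optimal covering of the sphere by nine equal caps. -/

namespace Pool.Agent.Results.MP_488b8a_co.NineCaps

open Real

/-- the least common angular radius of `n` closed caps covering the unit sphere of `ℝ³` -/
noncomputable def capRadius (n : ℕ) : ℝ :=
  sInf {r : ℝ | 0 ≤ r ∧ ∃ p : Fin n → EuclideanSpace ℝ (Fin 3), (∀ i, ‖p i‖ = 1) ∧
    ∀ x : EuclideanSpace ℝ (Fin 3), ‖x‖ = 1 → ∃ i, InnerProductGeometry.angle x (p i) ≤ r}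

/-- Nine unit vectors: at each of the poles `(0, 0, ±1)` the three points at the angular distance
`r` from the pole with longitudes `60°`, `180°`, `300°`, and the three points of the equator with
longitudes `0°`, `120°`, `240°`. -/
noncomputable def centre (r : ℝ) : Fin 9 → EuclideanSpace ℝ (Fin 3) := ![
  !₂[sin r / 2, √3 / 2 * sin r, cos r], !₂[-sin r, 0, cos r],
  !₂[sin r / 2, -(√3 / 2 * sin r), cos r], !₂[sin r / 2, √3 / 2 * sin r, -cos r],
  !₂[-sin r, 0, -cos r], !₂[sin r / 2, -(√3 / 2 * sin r), -cos r],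
  !₂[1, 0, 0], !₂[-1 / 2, √3 / 2, 0], !₂[-1 / 2, -(√3 / 2), 0]]

/-- The least radius `r` of nine caps is `arctan (u/√3)` (`45.8789°`), where `u = 1.78602...` is the
unique positive root of `u⁴ + 2u³ - 3u² - 12`; and nine unit vectors are the centres of a covering
by caps of this radius if and only if they are the image, under a linear isometry of `ℝ³`, of the
nine points `centre r`. -/
theorem result : ∃ u : ℝ, (0 < u ∧ u ^ 4 + 2 * u ^ 3 - 3 * u ^ 2 - 12 = 0) ∧
    (∀ v : ℝ, 0 < v → v ^ 4 + 2 * v ^ 3 - 3 * v ^ 2 - 12 = 0 → v = u) ∧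
    1.786020 < u ∧ u < 1.786021 ∧ capRadius 9 = arctan (u / √3) ∧
    ∀ p : Fin 9 → EuclideanSpace ℝ (Fin 3), (∀ i, ‖p i‖ = 1) →
      ((∀ x : EuclideanSpace ℝ (Fin 3), ‖x‖ = 1 →
        ∃ i, InnerProductGeometry.angle x (p i) ≤ capRadius 9) ↔
        ∃ g : EuclideanSpace ℝ (Fin 3) ≃ₗᵢ[ℝ] EuclideanSpace ℝ (Fin 3),
          Set.range p = g '' Set.range (centre (capRadius 9))) := by
  have h0 : 0 < Pool.Agent.C9.uu := lt_trans (by norm_num) Pool.Agent.C9.uu_lo
  have hr : capRadius 9 = arccos Pool.Agent.C9.kp := Pool.Agent.C9.cap9_arccos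
  have hc : Set.range (centre (capRadius 9)) = Set.range Pool.Agent.C9.pt9 := by
    have e : centre (capRadius 9) = Pool.Agent.C9.pt9 ∘ (![0, 1, 2, 3, 4, 5, 7, 8, 6] :
        Fin 9 → Fin 9) := by
      rw [hr]
      unfold centre
      rw [Pool.Agent.C9.sin_r, Pool.Agent.C9.cos_r]
      funext i
      fin_cases i
      · refine Pool.Agent.C32.ext3 rfl ?_ rfl
        show √3 / 2 * Pool.Agent.C9.sn = Pool.Agent.C9.sn * √3 / 2
        ring
      · rfl
      · refine Pool.Agent.C32.ext3 rfl ?_ rfl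
        show -(√3 / 2 * Pool.Agent.C9.sn) = -(Pool.Agent.C9.sn * √3 / 2)
        ring
      · refine Pool.Agent.C32.ext3 rfl ?_ rfl
        show √3 / 2 * Pool.Agent.C9.sn = Pool.Agent.C9.sn * √3 / 2
        ring
      · rfl
      · refine Pool.Agent.C32.ext3 rfl ?_ rfl
        show -(√3 / 2 * Pool.Agent.C9.sn) = -(Pool.Agent.C9.sn * √3 / 2)
        ring
      · rfl
      · rfl
      · rfl
    rw [e]
    refine Function.Surjective.range_comp (fun i => ?_) _
    revert i
    decide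
  refine ⟨Pool.Agent.C9.uu, ⟨h0, Pool.Agent.C9.uu_eq⟩, fun v hv h => Pool.Agent.C9.uu_unique hv h,
    Pool.Agent.C9.uu_lo, Pool.Agent.C9.uu_hi, Pool.Agent.C9.cap9 h0 Pool.Agent.C9.uu_eq, ?_⟩
  rw [hc]
  exact Pool.Agent.C9Y.cap9_unique

end Pool.Agent.Results.MP_488b8a_co.NineCaps
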