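import Pool.Agent.Lib.MP_488b8a_co.Final

/-! MP_488b8a_co: a lower bound of the second order for the covering radius of `n` equal caps. -/

namespace Pool.Agent.Results.MP_488b8a_co.SecondOrderLowerBound

/-- the least common angular radius of `n` closed caps covering the unit sphere of `ℝ³` -/
noncomputable def capRadius (n : ℕ) : ℝ :=
  sInf {r : ℝ | 0 ≤ r ∧ ∃ p : Fin n → EuclideanSpace ℝ (Fin 3), (∀ i, ‖p i‖ = 1) ∧
    ∀ x : EuclideanSpace ℝ (Fin 3), ‖x‖ = 1 → ∃ i, InnerProductGeometry.angle x (p i) ≤ r}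

/-- For all large `n`, `n r_n² ≥ (8π/(3√3)) (1 + c/√n)` with an absolute constant `c > 0`. -/
theorem result : ∃ c : ℝ, 0 < c ∧ ∃ n₀ : ℕ, ∀ n : ℕ, n₀ ≤ n →
    8 * Real.pi / (3 * Real.sqrt 3) * (1 + c / Real.sqrt n) ≤ n * capRadius n ^ 2 :=
  Pool.Agent.CAPS.main

end Pool.Agent.Results.MP_488b8a_co.SecondOrderLowerBound
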