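import Pool.Agent.Lib.MP_488b8a_co_V.FinN

/-! MP_488b8a_co: the upper bound of the sharp second order for the covering radius of `n` equal
caps. -/

namespace Pool.Agent.Results.MP_488b8a_co.SharpSecondOrder

/-- the least common angular radius of `n` closed caps covering the unit sphere of `ℝ³` -/
noncomputable def capRadius (n : ℕ) : ℝ :=
  sInf {r : ℝ | 0 ≤ r ∧ ∃ p : Fin n → EuclideanSpace ℝ (Fin 3), (∀ i, ‖p i‖ = 1) ∧
    ∀ x : EuclideanSpace ℝ (Fin 3), ‖x‖ = 1 → ∃ i, InnerProductGeometry.angle x (p i) ≤ r}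

/-- For all large `n`, `n r_n² ≤ (8π/(3√3)) (1 + C/√n)` with an absolute constant `C`. -/
theorem result : ∃ C : ℝ, 0 < C ∧ ∃ n₀ : ℕ, ∀ n : ℕ, n₀ ≤ n →
    n * capRadius n ^ 2 ≤ 8 * Real.pi / (3 * Real.sqrt 3) * (1 + C / Real.sqrt n) :=
  Pool.Agent.CAPV.mainN

end Pool.Agent.Results.MP_488b8a_co.SharpSecondOrder
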