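import Pool.Agent.Lib.MP_488b8a_co_W.Fin32

/-! MP_488b8a_co: the optimal covering of the sphere by 32 equal caps. -/

namespace Pool.Agent.Results.MP_488b8a_co.ThirtyTwoCaps

/-- the least common angular radius of `n` closed caps covering the unit sphere of `ℝ³` -/
noncomputable def capRadius (n : ℕ) : ℝ :=
  sInf {r : ℝ | 0 ≤ r ∧ ∃ p : Fin n → EuclideanSpace ℝ (Fin 3), (∀ i, ‖p i‖ = 1) ∧
    ∀ x : EuclideanSpace ℝ (Fin 3), ‖x‖ = 1 → ∃ i, InnerProductGeometry.angle x (p i) ≤ r}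

/-- the golden ratio -/
noncomputable def gold : ℝ := (1 + √5) / 2

/-- a sign -/
noncomputable def sg (s : Bool) : ℝ := if s then 1 else -1

/-- the cyclic shifts `(x, y, z)`, `(z, x, y)`, `(y, z, x)` -/
noncomputable def cyc (k : Fin 3) (x y z : ℝ) : EuclideanSpace ℝ (Fin 3) :=
  match k with
  | 0 => !₂[x, y, z]
  | 1 => !₂[z, x, y]
  | 2 => !₂[y, z, x]

/-- The 32 centres (unit vectors): the 12 vertices of an icosahedron, proportional to the cyclic
shifts of `(0, ±1, ±gold)`, and the 20 vertices of the dual dodecahedron, proportional to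
`(±1, ±1, ±1)` and to the cyclic shifts of `(±1/gold, 0, ±gold)`. -/
noncomputable def centre : (Bool × Bool × Fin 3) ⊕ (Bool × Bool × Bool) ⊕ (Bool × Bool × Fin 3) →
    EuclideanSpace ℝ (Fin 3)
  | Sum.inl (s, t, k) => (√(2 + gold))⁻¹ • cyc k 0 (sg s) (sg t * gold)
  | Sum.inr (Sum.inl (s, t, u)) => (√3)⁻¹ • cyc 0 (sg s) (sg t) (sg u)
  | Sum.inr (Sum.inr (s, t, k)) => (√3)⁻¹ • cyc k (sg s / gold) 0 (sg t * gold)

/-- The least radius is `arctan √(9 - √5 - √(30 + 6√5))` (`22.69048°`), and 32 unit vectors are the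
centres of a covering by caps of this radius if and only if they are the image, under a linear
isometry of `ℝ³`, of the 32 points above. -/
theorem result : capRadius 32 = Real.arctan √(9 - √5 - √(30 + 6 * √5)) ∧
    ∀ p : Fin 32 → EuclideanSpace ℝ (Fin 3), (∀ i, ‖p i‖ = 1) →
      ((∀ x : EuclideanSpace ℝ (Fin 3), ‖x‖ = 1 →
        ∃ i, InnerProductGeometry.angle x (p i) ≤ capRadius 32) ↔
        ∃ g : EuclideanSpace ℝ (Fin 3) ≃ₗᵢ[ℝ] EuclideanSpace ℝ (Fin 3),
          Set.range p = g '' Set.range centre) := by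
  have h : centre = Pool.Agent.C32.pt := by
    funext s
    rcases s with ⟨s, t, k⟩ | ⟨s, t, u⟩ | ⟨s, t, k⟩
    · fin_cases k <;> rfl
    · rfl
    · fin_cases k <;> rfl
  rw [h]
  exact ⟨Pool.Agent.C32.cap_value, Pool.Agent.C32.cap_unique⟩

end Pool.Agent.Results.MP_488b8a_co.ThirtyTwoCaps
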